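import Pool.Agent.MT100GO.All
import Pool.Agent.MTL.All

/-!
# The Mumford-Tate conjecture for one hundred percent of the integral fibres of the one parameter
families with orthogonal monodromy

A family `F` is a system of differential equations over `ℚ(w)` which has, near `w = ∞`, a fundamental
matrix `H(1/w) w ^ (-N)` with `N` an integral nilpotent matrix and `H` a matrix of power series over `ℚ`,
`H(0) = 1`, such that the entries of `H` and of its inverse are of G-type, with a flat nondegenerate
symmetric pairing, and whose monodromy group (analytic continuation along chains of discs) has a Zariski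
closure which contains the special orthogonal group.  The rational structure on the solutions is given
by a matrix `P ∈ GL_r(ℂ)`; `perO F P w a` is the vector of the periods of the `a`-th form at `w`, and the
forms with `lev a ≥ p` span the `p`-th step of the Hodge filtration.  The Hodge numbers are arbitrary.

On the `ℓ`-adic side `ρ` is a continuous representation of the Galois group of `ℚ(t)` and `ρn` is its
specialisation at `t = n` (`Pool/Agent/MTL/Defs.lean`).
-/

set_option autoImplicit false

namespace Pool.Agent.MTKeep.OrthogonalFamilies

open Matrix Pool.Agent.MT100 Pool.Agent.MT100GO Pool.Agent.MTL Pool.Agent.Helper78_MT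

universe u

/-- For every family `F` of rank `r ≥ 5` with orthogonal monodromy, every weight `w` and every choice of
the Hodge levels `lev` such that some level is larger than `w / 2`, there is a function `n1` such that
for every rational structure `P` there is a set `S` of natural numbers of density zero, with at most
`r ^ 8` elements in every window `(n-K, n]`, `n ≥ n1 K`, such that:
for every `n ∉ S`, every rational Hodge structure `V` of weight `w` with a flat polarisation `E`, whose
Hodge filtration is given by the periods at `n`, has as its Mumford-Tate group the identity component of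
the group of similitudes of `E`; and for every prime `ℓ` and every continuous representation `ρ` of the
Galois group of `ℚ(t)` with coefficients in `ℚ_ℓ` there is a set `T` of natural numbers of density zero
such that for `n ∉ S ∪ T`, if `ρ` has a big monodromy group, the identity component of the Zariski
closure of the image of the specialisation `ρn` of `ρ` at `t = n` is the Mumford-Tate group of `V`. -/
theorem result (d : Type) [Fintype d] [DecidableEq d] (F : FamO d) (hr : 5 ≤ Fintype.card d)
    (w : ℕ) (lev : d → ℕ) (hlev : ∃ a, w < 2 * lev a) :
    ∃ n1 : ℕ → ℕ, ∀ P : Matrix d d ℂ, IsUnit P.det →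
      ∃ S : Set ℕ, DensZero S ∧
        (∀ K n : ℕ, n1 K ≤ n →
          Nat.card {m : ℕ // m ∈ S ∧ n < m + K ∧ m ≤ n} ≤ (Fintype.card d ^ 4) ^ 2) ∧
        (∀ n : ℕ, n ∉ S → ∀ (E : Matrix d d ℚ) (V : ℕ → Submodule ℂ (d → ℂ)),
          PolHodge w E V ∧ FlatO F P E ∧ HasFilO F lev P n V →
          ∀ (K : Type u) [Field K] [CharZero K], mtGroup w V K = simO E K) ∧
        ∀ (ℓ : ℕ) [Fact ℓ.Prime] (ρ : GT →* GL d ℚ_[ℓ]), Continuous ρ →
          ∃ T : Set ℕ, DensZero T ∧ ∀ n : ℕ, n ∉ S → n ∉ T →
            ∀ (E : Matrix d d ℚ) (V : ℕ → Submodule ℂ (d → ℂ)), BigMonodromy E ρ →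
            PolHodge w E V ∧ FlatO F P E ∧ HasFilO F lev P n V →
            ∀ ρn : GQ →* GL d ℚ_[ℓ], Specializes ρ n ρn →
              ∀ (K : Type u) [Field K] [CharZero K] [Algebra ℚ_[ℓ] K],
                monodromy ρn K = mtGroup w V K := by
  obtain ⟨n1, h⟩ := main_all.{u, 0} d F hr w lev hlev
  refine ⟨n1, fun P hP => ?_⟩
  obtain ⟨S, hS, hw, h2⟩ := h P hP
  exact ⟨S, hS, hw, upgrade.{u} serAll w
    (fun n E V => PolHodge w E V ∧ FlatO F P E ∧ HasFilO F lev P n V)
    (fun E K _ _ => simO E K) S fun n hn E V hV => h2 n hn E V hV.1 hV.2.1 hV.2.2⟩

end Pool.Agent.MTKeep.OrthogonalFamilies
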